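import Pool.Agent.U81.SA.Wit

/-!
The simple Anosov domains are not maximal: for every closed hyperbolic surface group and every
`d ≥ 4` there is one domain of discontinuity `U` of the character variety that strictly contains
the simple `k`-Anosov domain for every `1 ≤ k ≤ d - 1`.
-/

set_option autoImplicit false

open scoped MatrixGroups
open Pool.Agent.Y473.SA Pool.Agent.U81.SA

namespace Pool.Agent.Results.MP_c30652_gt.NotMaximal

/-- For `d ≥ 4` the simple `k`-Anosov domain is not a maximal domain of discontinuity, for any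
`1 ≤ k ≤ d - 1`, and one larger domain of discontinuity works for all `k`. -/
theorem result (Γ : Subgroup SL(2, ℝ)) (hΓ : IsClosedSurface Γ) (d : ℕ) (hd : 4 ≤ d) :
    ∃ U : Set (CharVar Γ d), IsDomainOfDiscontinuity U ∧
      ∀ k : ℕ, 1 ≤ k → k < d → simpleAnosovDomain Γ d k ⊂ U := by
  refine ⟨bigU Γ d, bigU_domain hΓ (by omega), fun k hk hkd => ?_⟩
  refine ⟨simple_subset hΓ hk hkd, fun hsub => ?_⟩
  have key : ∃ x ∈ bigU Γ d, x ∉ simpleAnosovDomain Γ d k := by
    by_cases h1 : 2 ≤ k ∧ k + 2 ≤ d
    · exact strict_mid hΓ h1.1 h1.2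
    · exact strict_end hΓ hd (by omega)
  obtain ⟨x, hx, hx'⟩ := key
  exact hx' (hsub hx)

end Pool.Agent.Results.MP_c30652_gt.NotMaximal
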